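import Mathlib
import Pool.Agent.Helper372.RookDefining

set_option autoImplicit false

namespace Pool.Agent.Results.MP_0e4c8c_co.KTwoNMinusTwo

/-- The graph of the problem: the Cartesian product of two complete graphs on `n` vertices
(Mathlib's `SimpleGraph.boxProd`). -/
abbrev rook (n : ℕ) : SimpleGraph (Fin n × Fin n) :=
  SimpleGraph.boxProd (⊤ : SimpleGraph (Fin n)) (⊤ : SimpleGraph (Fin n))

/-- `S` is the support of a defining set of a `k`-colouring of `G`: for some assignment
`p : S → Fin k` exactly one proper `k`-colouring of `G` restricts to `p` on `S`. -/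
def IsDefiningSet {V : Type*} (G : SimpleGraph V) (k : ℕ) (S : Finset V) : Prop :=
  ∃ p : S → Fin k, ∃! c : G.Coloring (Fin k), ∀ v : S, c v = p v

/-- The defining number `d(G, k)`: the least size of a defining set. -/
noncomputable def definingNumber {V : Type*} (G : SimpleGraph V) (k : ℕ) : ℕ :=
  sInf {m | ∃ S : Finset V, S.card = m ∧ IsDefiningSet G k S}

/-- For all `n ≥ 2` the lower bound `d ≥ n ^ 2 - 8 n / 5` with `k = 2 n - 2` colours, and for all
`n ≥ 20`, and for all multiples of `10`, the upper bound `d ≤ n ^ 2 - 16 ⌊n / 10⌋`. -/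
theorem result (n : ℕ) (hn : 2 ≤ n) :
    n ^ 2 ≤ definingNumber (rook n) (2 * n - 2) + 8 * n / 5 ∧
      ((10 ∣ n ∨ 20 ≤ n) →
        definingNumber (rook n) (2 * n - 2) + 16 * (n / 10) ≤ n ^ 2) := by
  constructor
  · have hne : {m | ∃ S : Finset (Fin n × Fin n), S.card = m ∧
        IsDefiningSet (rook n) (2 * n - 2) S}.Nonempty := by
      obtain ⟨S, hS⟩ := Pool.Agent.Helper372.Rook.exists_some n hn
      exact ⟨S.card, S, rfl, hS⟩
    obtain ⟨S, hS, p, hp⟩ := Nat.sInf_mem hne
    have h := Pool.Agent.Helper372.Rook.lower n (by omega) S p hp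
    have hd : definingNumber (rook n) (2 * n - 2) = S.card := hS.symm
    rw [hd]
    omega
  · intro h
    have key : ∃ S : Finset (Fin n × Fin n), S.card + 16 * (n / 10) = n ^ 2 ∧
        IsDefiningSet (rook n) (2 * n - 2) S := by
      by_cases h20 : 20 ≤ n
      · exact Pool.Agent.Helper372.Rook.upper n h20
      · have h10 : n = 10 := by
          rcases h with h | h
          · omega
          · omega
        subst h10
        exact Pool.Agent.Helper372.Rook.upper_ten
    obtain ⟨S, hS, hd⟩ := key
    have hle : definingNumber (rook n) (2 * n - 2) ≤ S.card := Nat.sInf_le ⟨S, rfl, hd⟩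
    omega

end Pool.Agent.Results.MP_0e4c8c_co.KTwoNMinusTwo
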